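import Pool.Agent.helper57.LQ.SpecA

/-!
# Project lq (MP_ebc808_nt), row AF3
-/

set_option autoImplicit false

open Finset PowerSeries

noncomputable section

namespace Pool.Agent.LQ

theorem AF3_one (N n : ℕ) (hn : n.Coprime N) (f : FF)
    (hf : ∀ m : ℕ, coeff m f ≠ 0 → m.Coprime N) (m : ℕ) (hm : ¬ m.Coprime N) :
    coeff m (T n f) = 0 := by
  rw [coeff_T]
  apply Finset.sum_eq_zero
  intro d hd
  by_contra hne
  have hco := hf _ hne
  obtain ⟨p, hp, hpm, hpN⟩ := Nat.Prime.not_coprime_iff_dvd.mp hm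
  have hd0 : 0 < d := Nat.pos_of_mem_divisors hd
  have hdg : d ∣ Nat.gcd m n := Nat.dvd_of_mem_divisors hd
  have hdm : d ∣ m := hdg.trans (Nat.gcd_dvd_left m n)
  have hdn : d ∣ n := hdg.trans (Nat.gcd_dvd_right m n)
  have hpn : ¬ p ∣ n := by
    intro h
    exact Nat.Prime.not_coprime_iff_dvd.mpr ⟨p, hp, h, hpN⟩ hn
  have hpd : ¬ p ∣ d := fun h => hpn (h.trans hdn)
  have e : m * n / d ^ 2 = (m / d) * (n / d) := by
    rw [pow_two, Nat.mul_div_mul_comm hdm hdn]
  have hpq : p ∣ m / d := by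
    have h1 : p ∣ d * (m / d) := by rwa [Nat.mul_div_cancel' hdm]
    exact (hp.dvd_mul.mp h1).resolve_left hpd
  apply Nat.Prime.not_coprime_iff_dvd.mpr ⟨p, hp, ?_, hpN⟩ hco
  rw [e]
  exact Dvd.dvd.mul_right hpq _

theorem AF3_first (N : ℕ) (A : Module.End (ZMod 2) FF) (hA : A ∈ TT N) (f : FF)
    (hf : ∀ m : ℕ, coeff m f ≠ 0 → m.Coprime N) (m : ℕ) (hm : ¬ m.Coprime N) :
    coeff m (A f) = 0 := by
  unfold TT at hA
  induction hA using Submodule.span_induction with
  | mem A h =>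
    obtain ⟨n, hn, rfl⟩ := h
    exact AF3_one N n hn f hf m hm
  | zero => simp
  | add A B _ _ h1 h2 => rw [LinearMap.add_apply, map_add, h1, h2, add_zero]
  | smul c A _ h1 => rw [LinearMap.smul_apply, PowerSeries.coeff_smul, h1, smul_zero]

theorem AF3_second (N : ℕ) (g : FF) (hg : Gen N g) (A : Module.End (ZMod 2) FF) (hA : A ∈ TT N)
    (K : ℕ) (f : FF) (hf : f ∈ VV N g K) : A f ∈ VV N g K := by
  unfold TT at hA
  induction hA using Submodule.span_induction with
  | mem A h =>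
    obtain ⟨n, hn, rfl⟩ := h
    have hf' : f ∈ Submodule.span (ZMod 2) {f | ∃ i : ℕ, i < K ∧ i.Coprime N ∧ f = g ^ i} := hf
    induction hf' using Submodule.span_induction with
    | mem f h =>
      obtain ⟨i, hi, hiN, rfl⟩ := h
      exact VV_mono N g hi (hg.hec n hn i hiN)
    | zero => rw [map_zero]; exact Submodule.zero_mem _
    | add f1 f2 h1 h2 i1 i2 => rw [map_add]; exact Submodule.add_mem _ (i1 h1) (i2 h2)
    | smul c f1 h1 i1 => rw [map_smul]; exact Submodule.smul_mem _ _ (i1 h1)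
  | zero => rw [LinearMap.zero_apply]; exact Submodule.zero_mem _
  | add A B _ _ h1 h2 => rw [LinearMap.add_apply]; exact Submodule.add_mem _ h1 h2
  | smul c A _ h1 => rw [LinearMap.smul_apply]; exact Submodule.smul_mem _ _ h1

theorem AF3 : AF3_stmt := by
  refine ⟨?_, ?_⟩
  · intro N A hA f hf m hm
    by_contra h
    exact hm (AF3_first N A hA f hf m h)
  · intro N g hg A hA K f hf
    exact AF3_second N g hg A hA K f hf

end Pool.Agent.LQ
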